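import Mathlib

namespace Pool.Agent.Results.MP_61c8b8_co.LinearReadOnce

open Finset

variable {α : Type*} [Fintype α] [DecidableEq α]

/-! ### Set form -/

open Classical in
/-- minimal sets on which `f` holds -/
noncomputable def MinT (f : Finset α → Prop) : Finset (Finset α) :=
  univ.filter (fun A => f A ∧ ∀ i ∈ A, ¬ f (A.erase i))

/-- the dual function -/
def dual (f : Finset α → Prop) : Finset α → Prop := fun X => ¬ f Xᶜ

/-- complements of maximal zeros -/
noncomputable def MaxT (f : Finset α → Prop) : Finset (Finset α) := MinT (dual f)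

open Classical in
/-- relevant elements -/
noncomputable def R (f : Finset α → Prop) : Finset α :=
  univ.filter (fun i => ∃ X, f (insert i X) ∧ ¬ f X)

/-- monotone -/
def Mono (f : Finset α → Prop) : Prop := ∀ X Y, X ⊆ Y → f X → f Y

theorem mem_MinT {f : Finset α → Prop} {A : Finset α} :
    A ∈ MinT f ↔ f A ∧ ∀ i ∈ A, ¬ f (A.erase i) := by
  classical
  unfold MinT; simp

theorem mem_MaxT {f : Finset α → Prop} {C : Finset α} :
    C ∈ MaxT f ↔ ¬ f Cᶜ ∧ ∀ i ∈ C, f (insert i Cᶜ) := by
  unfold MaxT
  rw [mem_MinT]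
  unfold dual
  constructor
  · rintro ⟨h1, h2⟩
    refine ⟨h1, fun i hi => ?_⟩
    have := h2 i hi
    rw [not_not] at this
    rwa [compl_erase] at this
  · rintro ⟨h1, h2⟩
    refine ⟨h1, fun i hi => ?_⟩
    rw [not_not, compl_erase]
    exact h2 i hi

theorem mem_R {f : Finset α → Prop} {i : α} : i ∈ R f ↔ ∃ X, f (insert i X) ∧ ¬ f X := by
  classical
  unfold R; simp

theorem dual_dual (f : Finset α → Prop) : dual (dual f) = f := by
  funext X
  unfold dual
  rw [compl_compl, not_not]

theorem dual_mono {f : Finset α → Prop} (hf : Mono f) : Mono (dual f) := by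
  intro X Y hXY hX hY
  exact hX (hf _ _ (compl_subset_compl.2 hXY) hY)

theorem MaxT_dual (f : Finset α → Prop) : MaxT (dual f) = MinT f := by
  unfold MaxT; rw [dual_dual]

theorem R_dual {f : Finset α → Prop} (hf : Mono f) : R (dual f) = R f := by
  have key : ∀ g : Finset α → Prop, Mono g → R g ⊆ R (dual g) := by
    intro g hg i hi
    rw [mem_R] at hi ⊢
    obtain ⟨X, h1, h2⟩ := hi
    refine ⟨(insert i X)ᶜ, ?_, ?_⟩
    · unfold dual
      intro h
      apply h2
      refine hg _ _ ?_ h
      intro x hx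
      simp only [mem_compl, mem_insert, not_or, not_and, not_not] at hx
      exact hx.2 hx.1
    · unfold dual
      rw [compl_compl, not_not]
      exact h1
  apply Subset.antisymm
  · have := key (dual f) (dual_mono hf)
    rwa [dual_dual] at this
  · exact key f hf

theorem exists_min {f : Finset α → Prop} {X : Finset α} (hX : f X) : ∃ A ∈ MinT f, A ⊆ X := by
  induction X using Finset.strongInduction with
  | H X ih =>
    by_cases h : ∀ i ∈ X, ¬ f (X.erase i)
    · exact ⟨X, mem_MinT.2 ⟨hX, h⟩, Subset.refl _⟩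
    · push Not at h
      obtain ⟨i, hi, hfi⟩ := h
      obtain ⟨A, hA, hAX⟩ := ih _ (erase_ssubset hi) hfi
      exact ⟨A, hA, hAX.trans (erase_subset _ _)⟩

theorem exists_max {f : Finset α → Prop} {X : Finset α} (hX : ¬ f X) :
    ∃ C ∈ MaxT f, Disjoint C X := by
  have : dual f Xᶜ := by
    unfold dual; rwa [compl_compl]
  obtain ⟨C, hC, hCX⟩ := exists_min this
  exact ⟨C, hC, by rwa [← subset_compl_iff_disjoint_right]⟩

theorem f_of_min {f : Finset α → Prop} (hf : Mono f) {A X : Finset α} (hA : A ∈ MinT f)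
    (h : A ⊆ X) : f X := hf _ _ h (mem_MinT.1 hA).1

theorem not_f_of_max {f : Finset α → Prop} (hf : Mono f) {C X : Finset α} (hC : C ∈ MaxT f)
    (h : Disjoint C X) : ¬ f X := by
  intro hX
  refine (mem_MaxT.1 hC).1 (hf _ _ ?_ hX)
  rwa [subset_compl_iff_disjoint_left]

theorem min_subset_R {f : Finset α → Prop} {A : Finset α} (hA : A ∈ MinT f) : A ⊆ R f := by
  intro i hi
  rw [mem_MinT] at hA
  rw [mem_R]
  exact ⟨A.erase i, by rw [insert_erase hi]; exact hA.1, hA.2 i hi⟩

theorem max_subset_R {f : Finset α → Prop} (hf : Mono f) {C : Finset α} (hC : C ∈ MaxT f) :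
    C ⊆ R f := by
  rw [← R_dual hf]
  exact min_subset_R hC

theorem exists_min_mem {f : Finset α → Prop} (hf : Mono f) {i : α} (hi : i ∈ R f) :
    ∃ A ∈ MinT f, i ∈ A := by
  rw [mem_R] at hi
  obtain ⟨X, h1, h2⟩ := hi
  obtain ⟨A, hA, hAX⟩ := exists_min h1
  refine ⟨A, hA, ?_⟩
  by_contra hiA
  apply h2
  refine f_of_min hf hA ?_
  intro x hx
  have := hAX hx
  rw [mem_insert] at this
  rcases this with rfl | h
  · exact absurd hx hiA
  · exact h

theorem R_subset_of {f : Finset α → Prop} {Z : Finset α} (hZ : ∀ X, f X → f (X ∩ Z))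
    (hf : Mono f) : R f ⊆ Z := by
  intro i hi
  rw [mem_R] at hi
  obtain ⟨X, h1, h2⟩ := hi
  by_contra hiZ
  apply h2
  refine hf _ _ ?_ (hZ _ h1)
  intro x hx
  rw [mem_inter, mem_insert] at hx
  rcases hx with ⟨rfl | h, h'⟩
  · exact absurd h' hiZ
  · exact h

theorem f_inter_R {f : Finset α → Prop} (hf : Mono f) {X : Finset α} (hX : f X) : f (X ∩ R f) := by
  obtain ⟨A, hA, hAX⟩ := exists_min hX
  exact f_of_min hf hA (subset_inter hAX (min_subset_R hA))

/-! ### The linear algebra -/

section weights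

variable {f : Finset α → Prop} (hf : Mono f) (w : α → ℚ) (t : ℚ)

include hf

/-- sum of weights -/
def S (w : α → ℚ) (X : Finset α) : ℚ := ∑ i ∈ X, w i

theorem K1 (hA : ∀ A ∈ MinT f, t ≤ S w A) (hC : ∀ C ∈ MaxT f, S w C = -t) : t ≤ 0 := by
  by_cases h : f (univ.filter (fun i => w i < 0))
  · obtain ⟨A, hA', hAX⟩ := exists_min h
    have h1 : S w A ≤ 0 := by
      apply sum_nonpos
      intro i hi
      have := hAX hi
      rw [mem_filter] at this
      exact this.2.le
    exact (hA A hA').trans h1
  · obtain ⟨C, hC', hCX⟩ := exists_max h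
    have h1 : 0 ≤ S w C := by
      apply sum_nonneg
      intro i hi
      have := Finset.disjoint_left.1 hCX hi
      rw [mem_filter] at this
      simpa using this
    rw [hC C hC'] at h1
    linarith

theorem K2 (hA : ∀ A ∈ MinT f, 0 ≤ S w A) (hC : ∀ C ∈ MaxT f, S w C = 0) :
    ∀ i ∈ R f, w i = 0 := by
  have hsub : R f ⊆ univ.filter (fun i => w i = 0) := by
    apply R_subset_of _ hf
    intro X hX
    by_cases h : f (univ.filter (fun i => w i < 0) ∪ (X ∩ univ.filter (fun i => w i = 0)))
    · obtain ⟨A, hA', hAX⟩ := exists_min h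
      have hle : ∀ i ∈ A, w i ≤ 0 := by
        intro i hi
        have := hAX hi
        rw [mem_union, mem_inter, mem_filter, mem_filter] at this
        rcases this with h | h
        · exact h.2.le
        · exact h.2.2.le
      have h1 : S w A = 0 := le_antisymm (sum_nonpos hle) (hA A hA')
      have h2 : ∀ i ∈ A, w i = 0 := (sum_eq_zero_iff_of_nonpos hle).1 h1
      refine f_of_min hf hA' ?_
      intro i hi
      have := hAX hi
      rw [mem_union, mem_filter] at this
      rcases this with h | h
      · exact absurd (h2 i hi) (ne_of_lt h.2)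
      · exact h
    · exfalso
      obtain ⟨C, hC', hCX⟩ := exists_max h
      have hge : ∀ i ∈ C, 0 ≤ w i := by
        intro i hi
        have := Finset.disjoint_left.1 hCX hi
        rw [mem_union, mem_filter, not_or] at this
        have h' := this.1
        simpa using h'
      have h2 : ∀ i ∈ C, w i = 0 := (sum_eq_zero_iff_of_nonneg hge).1 (hC C hC')
      refine not_f_of_max hf hC' ?_ hX
      rw [Finset.disjoint_left]
      intro i hi hiX
      have := Finset.disjoint_left.1 hCX hi
      rw [mem_union, mem_inter, mem_filter, mem_filter, not_or] at this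
      exact this.2 ⟨hiX, mem_univ _, h2 i hi⟩
  intro i hi
  have := hsub hi
  rw [mem_filter] at this
  exact this.2

theorem K3 (ht : t < 0) {A₀ : Finset α} (hA : ∀ A ∈ MinT f, A ≠ A₀ → S w A = t)
    (hC : ∀ C ∈ MaxT f, S w C = -t) : ∀ i ∈ A₀, 0 < w i := by
  by_cases h : f (univ.filter (fun i => 0 < w i))
  · obtain ⟨A, hA', hAX⟩ := exists_min h
    have h1 : 0 ≤ S w A := by
      apply sum_nonneg
      intro i hi
      have := hAX hi
      rw [mem_filter] at this
      exact this.2.le
    have h2 : A = A₀ := by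
      by_contra hne
      rw [hA A hA' hne] at h1
      linarith
    subst h2
    intro i hi
    have := hAX hi
    rw [mem_filter] at this
    exact this.2
  · exfalso
    obtain ⟨C, hC', hCX⟩ := exists_max h
    have h1 : S w C ≤ 0 := by
      apply sum_nonpos
      intro i hi
      have := Finset.disjoint_left.1 hCX hi
      rw [mem_filter] at this
      simpa using this
    rw [hC C hC'] at h1
    linarith

theorem ker_zero (hA : ∀ A ∈ MinT f, S w A = t) (hC : ∀ C ∈ MaxT f, S w C = -t) :
    t = 0 ∧ ∀ i ∈ R f, w i = 0 := by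
  have h1 : t ≤ 0 := K1 hf w t (fun A h => (hA A h).ge) hC
  have h2 : -t ≤ 0 := by
    refine K1 (dual_mono hf) w (-t) (fun A h => ?_) (fun C h => ?_)
    · exact (hC A h).ge
    · rw [MaxT_dual] at h
      rw [hA C h, neg_neg]
  have h3 : t = 0 := le_antisymm h1 (by linarith)
  subst h3
  refine ⟨rfl, K2 hf w (fun A h => (hA A h).ge) (fun C h => ?_)⟩
  rw [hC C h, neg_zero]

theorem pos_of_sol {A₀ : Finset α} (hA₀ : A₀ ∈ MinT f) (h0 : S w A₀ = t + 1)
    (hA : ∀ A ∈ MinT f, A ≠ A₀ → S w A = t) (hC : ∀ C ∈ MaxT f, S w C = -t) :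
    ∀ i ∈ A₀, 0 < w i := by
  have hge : ∀ A ∈ MinT f, t ≤ S w A := by
    intro A h
    by_cases h' : A = A₀
    · subst h'; rw [h0]; linarith
    · exact (hA A h h').ge
  have h1 : t ≤ 0 := K1 hf w t hge hC
  rcases h1.lt_or_eq with h2 | h2
  · exact K3 hf w t h2 hA hC
  · exfalso
    subst h2
    have h3 := K2 hf w hge (fun C h => by rw [hC C h, neg_zero])
    have h4 : S w A₀ = 0 := by
      apply sum_eq_zero
      intro i hi
      exact h3 i (min_subset_R hA₀ hi)
    rw [h4] at h0
    norm_num at h0

end weights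

/-- the linear map whose rows are the minterms and maxterms -/
noncomputable def Phi (f : Finset α → Prop) :
    ((α → ℚ) × ℚ) →ₗ[ℚ] (((MinT f → ℚ) × (MaxT f → ℚ)) × ({i // i ∉ R f} → ℚ)) where
  toFun p := ((fun A => S p.1 A.1 - p.2, fun C => S p.1 C.1 + p.2), fun i => p.1 i.1)
  map_add' p q := by
    refine Prod.ext (Prod.ext ?_ ?_) ?_
    · funext A
      simp only [S, Prod.fst_add, Prod.snd_add, Pi.add_apply, sum_add_distrib]
      ring
    · funext A
      simp only [S, Prod.fst_add, Prod.snd_add, Pi.add_apply, sum_add_distrib]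
      ring
    · rfl
  map_smul' c p := by
    refine Prod.ext (Prod.ext ?_ ?_) ?_
    · funext A
      simp only [S, Prod.smul_fst, Prod.smul_snd, Pi.smul_apply, smul_eq_mul, RingHom.id_apply,
        ← mul_sum]
      ring
    · funext A
      simp only [S, Prod.smul_fst, Prod.smul_snd, Pi.smul_apply, smul_eq_mul, RingHom.id_apply,
        ← mul_sum]
      ring
    · rfl

theorem Phi_injective {f : Finset α → Prop} (hf : Mono f) : Function.Injective (Phi f) := by
  rw [injective_iff_map_eq_zero]
  rintro ⟨w, t⟩ h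
  have h1 : ∀ A ∈ MinT f, S w A = t := by
    intro A hA
    have := congrFun (congrArg (fun p => p.1.1) h) ⟨A, hA⟩
    have h' : S w A - t = 0 := this
    linarith
  have h2 : ∀ C ∈ MaxT f, S w C = -t := by
    intro C hC
    have := congrFun (congrArg (fun p => p.1.2) h) ⟨C, hC⟩
    have h' : S w C + t = 0 := this
    linarith
  have h3 : ∀ i, i ∉ R f → w i = 0 := by
    intro i hi
    exact congrFun (congrArg (fun p => p.2) h) ⟨i, hi⟩
  obtain ⟨h4, h5⟩ := ker_zero hf w t h1 h2
  refine Prod.ext ?_ h4
  funext i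
  by_cases hi : i ∈ R f
  · exact h5 i hi
  · exact h3 i hi

theorem finrank_dom : Module.finrank ℚ ((α → ℚ) × ℚ) = Fintype.card α + 1 := by
  rw [Module.finrank_prod, Module.finrank_fintype_fun_eq_card, Module.finrank_self]

theorem finrank_cod (f : Finset α → Prop) :
    Module.finrank ℚ (((MinT f → ℚ) × (MaxT f → ℚ)) × ({i // i ∉ R f} → ℚ)) =
      (MinT f).card + (MaxT f).card + (Fintype.card α - (R f).card) := by
  rw [Module.finrank_prod, Module.finrank_prod, Module.finrank_fintype_fun_eq_card,
    Module.finrank_fintype_fun_eq_card, Module.finrank_fintype_fun_eq_card, Fintype.card_coe,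
    Fintype.card_coe]
  congr 1
  rw [Fintype.card_subtype_compl, Fintype.card_coe]

/-- the general lower bound -/
theorem ext_ge {f : Finset α → Prop} (hf : Mono f) :
    (R f).card + 1 ≤ (MinT f).card + (MaxT f).card := by
  have h := LinearMap.finrank_le_finrank_of_injective (Phi_injective hf)
  rw [finrank_dom, finrank_cod] at h
  have h2 : (R f).card ≤ Fintype.card α := card_le_univ _
  omega

theorem exists_sol {f : Finset α → Prop} (hf : Mono f)
    (heq : (MinT f).card + (MaxT f).card = (R f).card + 1) (g h : Finset α → ℚ) :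
    ∃ (w : α → ℚ) (t : ℚ), (∀ A ∈ MinT f, S w A = t + g A) ∧ ∀ C ∈ MaxT f, S w C = -t + h C := by
  have h2 : (R f).card ≤ Fintype.card α := card_le_univ _
  have hsurj : Function.Surjective (Phi f) := by
    rw [← LinearMap.injective_iff_surjective_of_finrank_eq_finrank]
    · exact Phi_injective hf
    · rw [finrank_dom, finrank_cod]
      omega
  obtain ⟨⟨w, t⟩, hp⟩ := hsurj ((fun A => g A.1, fun C => h C.1), 0)
  refine ⟨w, t, fun A hA => ?_, fun C hC => ?_⟩
  · have h' : S w A - t = g A := congrFun (congrArg (fun p => p.1.1) hp) ⟨A, hA⟩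
    linarith
  · have h' : S w C + t = h C := congrFun (congrArg (fun p => p.1.2) hp) ⟨C, hC⟩
    linarith

/-- the restriction to `x_i = 0` -/
def low (i : α) (f : Finset α → Prop) : Finset α → Prop := fun X => f (X.erase i)

theorem low_mono {f : Finset α → Prop} (hf : Mono f) (i : α) : Mono (low i f) :=
  fun _ _ h hX => hf _ _ (erase_subset_erase i h) hX

theorem min_low {f : Finset α → Prop} {i : α} {A : Finset α} (hA : A ∈ MinT (low i f)) :
    A ∈ MinT f ∧ i ∉ A := by
  rw [mem_MinT] at hA
  obtain ⟨h1, h2⟩ := hA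
  have hi : i ∉ A := by
    intro hi
    apply h2 i hi
    unfold low at *
    rwa [erase_idem]
  refine ⟨mem_MinT.2 ⟨?_, fun j hj => ?_⟩, hi⟩
  · unfold low at h1
    rwa [erase_eq_of_notMem hi] at h1
  · have := h2 j hj
    unfold low at this
    rwa [erase_eq_of_notMem (fun h => hi (mem_of_mem_erase h))] at this

theorem max_low {f : Finset α → Prop} (hf : Mono f) {i : α} {C : Finset α}
    (hC : C ∈ MaxT (low i f)) : i ∉ C ∧ ∃ C' ∈ MaxT f, C'.erase i = C := by
  rw [mem_MaxT] at hC
  obtain ⟨h1, h2⟩ := hC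
  unfold low at h1 h2
  have hi : i ∉ C := by
    intro hi
    apply h1
    have := h2 i hi
    rwa [erase_insert_eq_erase] at this
  refine ⟨hi, ?_⟩
  obtain ⟨C', hC', hd⟩ := exists_max h1
  refine ⟨C', hC', ?_⟩
  apply Subset.antisymm
  · intro x hx
    rw [mem_erase] at hx
    by_contra hxC
    exact Finset.disjoint_left.1 hd hx.2 (mem_erase.2 ⟨hx.1, mem_compl.2 hxC⟩)
  · intro j hj
    have hji : j ≠ i := by rintro rfl; exact hi hj
    rw [mem_erase]
    refine ⟨hji, ?_⟩
    by_contra hjC
    refine not_f_of_max hf hC' ?_ (h2 j hj)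
    rw [Finset.disjoint_left]
    intro x hx hx2
    rw [mem_erase, mem_insert] at hx2
    rcases hx2 with ⟨h3, rfl | h4⟩
    · exact hjC hx
    · exact Finset.disjoint_left.1 hd hx (mem_erase.2 ⟨h3, h4⟩)

/-- the relation map -/
noncomputable def Psi (g : Finset α → Prop) :
    ((MinT g → ℚ) × (MaxT g → ℚ)) →ₗ[ℚ] ((R g → ℚ) × ℚ) where
  toFun p := (fun j => ∑ A, p.1 A * (if j.1 ∈ A.1 then 1 else 0) +
    ∑ C, p.2 C * (if j.1 ∈ C.1 then 1 else 0), -∑ A, p.1 A + ∑ C, p.2 C)
  map_add' p q := by
    refine Prod.ext ?_ ?_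
    · funext j
      simp only [Prod.fst_add, Prod.snd_add, Pi.add_apply, add_mul, sum_add_distrib]
      ring
    · simp only [Prod.fst_add, Prod.snd_add, Pi.add_apply, sum_add_distrib]
      ring
  map_smul' c p := by
    refine Prod.ext ?_ ?_
    · funext j
      simp only [Prod.smul_fst, Prod.smul_snd, Pi.smul_apply, smul_eq_mul, RingHom.id_apply,
        mul_assoc, ← mul_sum]
      ring
    · simp only [Prod.smul_fst, Prod.smul_snd, smul_eq_mul, RingHom.id_apply, Pi.smul_apply,
        ← mul_sum]
      ring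

theorem S_eq_sum (w : α → ℚ) {X Y : Finset α} (h : X ⊆ Y) :
    S w X = ∑ j : Y, w j.1 * (if j.1 ∈ X then 1 else 0) := by
  unfold S
  rw [Finset.sum_coe_sort Y (fun j => w j * (if j ∈ X then (1 : ℚ) else 0))]
  simp only [mul_ite, mul_one, mul_zero]
  rw [← sum_filter]
  congr 1
  ext x
  rw [mem_filter]
  exact ⟨fun hx => ⟨h hx, hx⟩, fun hx => hx.2⟩

theorem relation {g : Finset α → Prop} (hg : Mono g)
    (hlt : (R g).card + 1 < (MinT g).card + (MaxT g).card) :
    ∃ (a : MinT g → ℚ) (c : MaxT g → ℚ), ¬ (a = 0 ∧ c = 0) ∧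
      ∀ (w : α → ℚ) (t : ℚ), ∑ A, a A * (S w A.1 - t) + ∑ C, c C * (S w C.1 + t) = 0 := by
  have hker : LinearMap.ker (Psi g) ≠ ⊥ := by
    apply LinearMap.ker_ne_bot_of_finrank_lt
    rw [Module.finrank_prod, Module.finrank_prod, Module.finrank_fintype_fun_eq_card,
      Module.finrank_fintype_fun_eq_card, Module.finrank_fintype_fun_eq_card, Fintype.card_coe,
      Fintype.card_coe, Fintype.card_coe, Module.finrank_self]
    exact hlt
  obtain ⟨⟨a, c⟩, hmem, hne⟩ := (Submodule.ne_bot_iff _).1 hker
  refine ⟨a, c, fun h => hne (Prod.ext h.1 h.2), fun w t => ?_⟩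
  rw [LinearMap.mem_ker] at hmem
  have h1 : ∀ j : R g, ∑ A, a A * (if j.1 ∈ A.1 then 1 else 0) +
    ∑ C, c C * (if j.1 ∈ C.1 then 1 else 0) = 0 := fun j =>
      congrFun (congrArg Prod.fst hmem) j
  have h2 : -∑ A, a A + ∑ C, c C = 0 := congrArg Prod.snd hmem
  have e1 : ∀ A : MinT g, S w A.1 = ∑ j : R g, w j.1 * (if j.1 ∈ A.1 then 1 else 0) :=
    fun A => S_eq_sum w (min_subset_R A.2)
  have e2 : ∀ C : MaxT g, S w C.1 = ∑ j : R g, w j.1 * (if j.1 ∈ C.1 then 1 else 0) :=
    fun C => S_eq_sum w (max_subset_R hg C.2)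
  have e3 : ∑ A, a A * S w A.1 + ∑ C, c C * S w C.1 = 0 := by
    simp_rw [e1, e2, mul_sum]
    rw [sum_comm, sum_comm (s := (univ : Finset (MaxT g))), ← sum_add_distrib]
    apply sum_eq_zero
    intro j _
    have := h1 j
    calc ∑ A : MinT g, a A * (w j.1 * (if j.1 ∈ A.1 then 1 else 0)) +
          ∑ C : MaxT g, c C * (w j.1 * (if j.1 ∈ C.1 then 1 else 0))
        = w j.1 * (∑ A, a A * (if j.1 ∈ A.1 then 1 else 0) +
          ∑ C, c C * (if j.1 ∈ C.1 then 1 else 0)) := by
          rw [mul_add, mul_sum, mul_sum]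
          congr 1
          · apply sum_congr rfl; intro A _; ring
          · apply sum_congr rfl; intro A _; ring
      _ = 0 := by rw [this, mul_zero]
  have e4 : ∑ A, a A * (S w A.1 - t) = ∑ A, a A * S w A.1 - (∑ A, a A) * t := by
    simp_rw [mul_sub]
    rw [sum_sub_distrib, sum_mul]
  have e5 : ∑ C, c C * (S w C.1 + t) = ∑ C, c C * S w C.1 + (∑ C, c C) * t := by
    simp_rw [mul_add]
    rw [sum_add_distrib, sum_mul]
  rw [e4, e5]
  linear_combination e3 + t * h2

theorem low_le {f : Finset α → Prop} (hf : Mono f)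
    (heq : (MinT f).card + (MaxT f).card = (R f).card + 1) {i : α} (hi : i ∈ R f) :
    (MinT (low i f)).card + (MaxT (low i f)).card ≤ (R (low i f)).card + 1 := by
  by_contra hlt
  push Not at hlt
  obtain ⟨a, c, hne, hrel⟩ := relation (low_mono hf i) hlt
  have hch : ∀ C ∈ MaxT (low i f), ∃ C' ∈ MaxT f, C'.erase i = C := fun C hC =>
    (max_low hf hC).2
  choose! c' hc' hce using hch
  have hrel2 : ∀ (w : α → ℚ) (t : ℚ), ∑ A, a A * (S w A.1 - t) +
      ∑ C, c C * (S w (c' C.1) + t) = w i * ∑ C, c C * (if i ∈ c' C.1 then 1 else 0) := by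
    intro w t
    have h1 : ∀ C : MaxT (low i f), S w (c' C.1) = S w C.1 + w i * (if i ∈ c' C.1 then 1 else 0) := by
      intro C
      by_cases h : i ∈ c' C.1
      · rw [if_pos h, mul_one]
        have h2 := hce C.1 C.2
        have h3 : S w (c' C.1) = w i + ∑ j ∈ (c' C.1).erase i, w j := by
          unfold S
          rw [add_sum_erase _ _ h]
        rw [h3, h2]
        unfold S
        ring
      · rw [if_neg h, mul_zero, add_zero]
        have h2 := hce C.1 C.2
        rw [erase_eq_of_notMem h] at h2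
        rw [h2]
    simp_rw [h1]
    have h3 := hrel w t
    have h4 : ∑ C : MaxT (low i f), c C * (S w C.1 + w i * (if i ∈ c' C.1 then 1 else 0) + t) =
        ∑ C, c C * (S w C.1 + t) + w i * ∑ C, c C * (if i ∈ c' C.1 then 1 else 0) := by
      rw [mul_sum, ← sum_add_distrib]
      apply sum_congr rfl
      intro C _
      ring
    rw [h4]
    linear_combination h3
  -- mu = 0
  obtain ⟨A₀, hA₀, hiA₀⟩ := exists_min_mem hf hi
  have hmu : ∑ C, c C * (if i ∈ c' C.1 then (1 : ℚ) else 0) = 0 := by
    obtain ⟨w, t, h1, h2⟩ := exists_sol hf heq (fun A => if A = A₀ then 1 else 0) 0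
    have hpos : 0 < w i := by
      refine pos_of_sol hf w t hA₀ ?_ ?_ ?_ i hiA₀
      · rw [h1 A₀ hA₀, if_pos rfl]
      · intro A hA hne
        rw [h1 A hA, if_neg hne, add_zero]
      · intro C hC
        rw [h2 C hC, Pi.zero_apply, add_zero]
    have h3 := hrel2 w t
    have h4 : ∑ A, a A * (S w A.1 - t) = 0 := by
      apply sum_eq_zero
      intro A _
      have := min_low A.2
      rw [h1 A.1 this.1, if_neg, add_zero, sub_self, mul_zero]
      rintro h
      rw [h] at this
      exact this.2 hiA₀
    have h5 : ∑ C, c C * (S w (c' C.1) + t) = 0 := by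
      apply sum_eq_zero
      intro C _
      rw [h2 _ (hc' C.1 C.2), Pi.zero_apply, add_zero, neg_add_cancel, mul_zero]
    rw [h4, h5, add_zero] at h3
    rcases mul_eq_zero.1 h3.symm with h | h
    · exact absurd h hpos.ne'
    · exact h
  apply hne
  constructor
  · funext A₁
    obtain ⟨w, t, h1, h2⟩ := exists_sol hf heq (fun A => if A = A₁.1 then 1 else 0) 0
    have h3 := hrel2 w t
    rw [hmu, mul_zero] at h3
    have h5 : ∑ C, c C * (S w (c' C.1) + t) = 0 := by
      apply sum_eq_zero
      intro C _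
      rw [h2 _ (hc' C.1 C.2), Pi.zero_apply, add_zero, neg_add_cancel, mul_zero]
    have h4 : ∑ A, a A * (S w A.1 - t) = a A₁ := by
      rw [sum_eq_single A₁]
      · rw [h1 A₁.1 (min_low A₁.2).1, if_pos rfl]
        ring
      · intro A _ hne
        rw [h1 A.1 (min_low A.2).1, if_neg (fun h => hne (Subtype.ext h)), add_zero, sub_self,
          mul_zero]
      · intro h
        exact absurd (mem_univ _) h
    rw [h4, h5, add_zero] at h3
    exact h3
  · funext C₁
    obtain ⟨w, t, h1, h2⟩ := exists_sol hf heq 0 (fun A => if A = c' C₁.1 then 1 else 0)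
    have h3 := hrel2 w t
    rw [hmu, mul_zero] at h3
    have h5 : ∑ A, a A * (S w A.1 - t) = 0 := by
      apply sum_eq_zero
      intro A _
      rw [h1 A.1 (min_low A.2).1, Pi.zero_apply, add_zero, sub_self, mul_zero]
    have h4 : ∑ C, c C * (S w (c' C.1) + t) = c C₁ := by
      rw [sum_eq_single C₁]
      · rw [h2 _ (hc' C₁.1 C₁.2), if_pos rfl]
        ring
      · intro C _ hne
        rw [h2 _ (hc' C.1 C.2), if_neg, add_zero, neg_add_cancel, mul_zero]
        intro h
        apply hne
        apply Subtype.ext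
        rw [← hce C.1 C.2, ← hce C₁.1 C₁.2, h]
      · intro h
        exact absurd (mem_univ _) h
    rw [h4, h5, zero_add] at h3
    exact h3

/-! ### Nested functions in set form -/

/-- nested functions with their set of variables -/
inductive Nest : (Finset α → Prop) → Finset α → Prop
  | var (i : α) : Nest (fun X => i ∈ X) {i}
  | and (i : α) (g : Finset α → Prop) (T : Finset α) (h : Nest g T) (hi : i ∉ T) :
      Nest (fun X => i ∈ X ∧ g X) (insert i T)
  | or (i : α) (g : Finset α → Prop) (T : Finset α) (h : Nest g T) (hi : i ∉ T) :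
      Nest (fun X => i ∈ X ∨ g X) (insert i T)

theorem mem_R_iff {f : Finset α → Prop} (hf : Mono f) {i : α} :
    i ∈ R f ↔ ∃ A ∈ MinT f, i ∈ A :=
  ⟨fun h => exists_min_mem hf h, fun ⟨_, hA, h⟩ => min_subset_R hA h⟩

theorem irrel {g : Finset α → Prop} (hg : Mono g) {i : α} (hi : i ∉ R g) {X : Finset α} :
    g X → g (X.erase i) := by
  intro h
  refine hg _ _ ?_ (f_inter_R hg h)
  intro x hx
  rw [mem_inter] at hx
  rw [mem_erase]
  refine ⟨?_, hx.1⟩
  rintro rfl
  exact hi hx.2

theorem MinT_or {g : Finset α → Prop} {i : α} (hi : i ∉ R g) (h0 : ¬ g ∅) :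
    MinT (fun X => i ∈ X ∨ g X) = insert {i} (MinT g) := by
  ext A
  rw [mem_insert]
  constructor
  · intro h
    rw [mem_MinT] at h
    obtain ⟨h1, h2⟩ := h
    by_cases hiA : i ∈ A
    · left
      apply eq_singleton_iff_unique_mem.2
      refine ⟨hiA, fun j hj => ?_⟩
      by_contra hji
      exact h2 j hj (Or.inl (mem_erase.2 ⟨Ne.symm hji, hiA⟩))
    · right
      rw [mem_MinT]
      exact ⟨h1.resolve_left hiA, fun j hj h => h2 j hj (Or.inr h)⟩
  · rintro (rfl | h)
    · rw [mem_MinT]
      refine ⟨Or.inl (mem_singleton_self i), fun j hj => ?_⟩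
      rw [mem_singleton] at hj
      subst hj
      simp [h0]
    · rw [mem_MinT]
      have hiA : i ∉ A := fun h' => hi (min_subset_R h h')
      rw [mem_MinT] at h
      refine ⟨Or.inr h.1, fun j hj => ?_⟩
      rintro (h' | h')
      · exact hiA (mem_of_mem_erase h')
      · exact h.2 j hj h'

theorem MinT_and {g : Finset α → Prop} (hg : Mono g) {i : α} (hi : i ∉ R g) :
    MinT (fun X => i ∈ X ∧ g X) = (MinT g).image (insert i) := by
  ext A
  rw [mem_image]
  constructor
  · intro h
    rw [mem_MinT] at h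
    obtain ⟨⟨h1, h1'⟩, h2⟩ := h
    refine ⟨A.erase i, ?_, insert_erase h1⟩
    rw [mem_MinT]
    refine ⟨irrel hg hi h1', fun j hj h => ?_⟩
    rw [mem_erase] at hj
    refine h2 j hj.2 ⟨mem_erase.2 ⟨Ne.symm hj.1, h1⟩, hg _ _ ?_ h⟩
    exact erase_subset_erase _ (erase_subset _ _)
  · rintro ⟨B, hB, rfl⟩
    have hiB : i ∉ B := fun h' => hi (min_subset_R hB h')
    rw [mem_MinT] at hB ⊢
    refine ⟨⟨mem_insert_self _ _, hg _ _ (subset_insert _ _) hB.1⟩, fun j hj => ?_⟩
    rintro ⟨h1, h2⟩
    rw [mem_insert] at hj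
    have hji : j ≠ i := by
      rintro rfl
      exact (notMem_erase _ _) h1
    have hjB : j ∈ B := hj.resolve_left hji
    apply hB.2 j hjB
    have := irrel hg hi h2
    refine hg _ _ ?_ this
    intro x hx
    rw [mem_erase, mem_erase, mem_insert] at hx
    rw [mem_erase]
    exact ⟨hx.2.1, hx.2.2.resolve_left hx.1⟩

theorem dual_or (i : α) (g : Finset α → Prop) :
    dual (fun X => i ∈ X ∨ g X) = fun X => i ∈ X ∧ dual g X := by
  funext X
  show (¬ (i ∈ Xᶜ ∨ g Xᶜ)) = (i ∈ X ∧ ¬ g Xᶜ)
  rw [mem_compl, not_or, not_not]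

theorem dual_and (i : α) (g : Finset α → Prop) :
    dual (fun X => i ∈ X ∧ g X) = fun X => i ∈ X ∨ dual g X := by
  funext X
  show (¬ (i ∈ Xᶜ ∧ g Xᶜ)) = (i ∈ X ∨ ¬ g Xᶜ)
  rw [mem_compl, not_and_or, not_not]

theorem dual_var (i : α) : dual (fun X : Finset α => i ∈ X) = fun X => i ∈ X := by
  funext X
  show (¬ (i ∈ Xᶜ)) = (i ∈ X)
  rw [mem_compl, not_not]

theorem card_image_insert {g : Finset α → Prop} {i : α} (hi : i ∉ R g) :
    ((MinT g).image (insert i)).card = (MinT g).card := by
  apply card_image_of_injOn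
  intro A hA B hB h
  have hA' : i ∉ A := fun h' => hi (min_subset_R hA h')
  have hB' : i ∉ B := fun h' => hi (min_subset_R hB h')
  have h' : insert i A = insert i B := h
  rw [← erase_insert hA', h', erase_insert hB']

theorem MinT_var (i : α) : MinT (fun X : Finset α => i ∈ X) = {{i}} := by
  ext A
  rw [mem_singleton, mem_MinT]
  constructor
  · rintro ⟨h1, h2⟩
    apply eq_singleton_iff_unique_mem.2
    refine ⟨h1, fun j hj => ?_⟩
    by_contra hji
    exact h2 j hj (mem_erase.2 ⟨Ne.symm hji, h1⟩)
  · rintro rfl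
    refine ⟨mem_singleton_self i, fun j hj => ?_⟩
    rw [mem_singleton] at hj
    subst hj
    simp

theorem Nest.facts {f : Finset α → Prop} {T : Finset α} (h : Nest f T) :
    Mono f ∧ ¬ f ∅ ∧ f univ ∧ R f = T ∧ (MinT f).card + (MaxT f).card = T.card + 1 := by
  induction h with
  | var i =>
    have hm : Mono (fun X : Finset α => i ∈ X) := fun X Y h hX => h hX
    refine ⟨hm, notMem_empty i, mem_univ i, ?_, ?_⟩
    · ext j
      rw [mem_R_iff hm, MinT_var]
      simp
    · unfold MaxT
      rw [dual_var, MinT_var]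
      simp
  | and i g T h hi ih =>
    obtain ⟨hm, h0, h1, hR, hc⟩ := ih
    have hiR : i ∉ R g := by rwa [hR]
    have hm' : Mono (fun X : Finset α => i ∈ X ∧ g X) :=
      fun X Y h hX => ⟨h hX.1, hm _ _ h hX.2⟩
    refine ⟨hm', fun h => h0 h.2, ⟨mem_univ i, h1⟩, ?_, ?_⟩
    · ext j
      rw [mem_R_iff hm', MinT_and hm hiR, mem_insert, ← hR, mem_R_iff hm]
      constructor
      · rintro ⟨A, hA, hj⟩
        rw [mem_image] at hA
        obtain ⟨B, hB, rfl⟩ := hA
        rw [mem_insert] at hj
        rcases hj with rfl | hj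
        · exact Or.inl rfl
        · exact Or.inr ⟨B, hB, hj⟩
      · rintro (rfl | ⟨B, hB, hj⟩)
        · obtain ⟨B, hB, -⟩ := exists_min h1
          exact ⟨insert j B, mem_image_of_mem _ hB, mem_insert_self _ _⟩
        · exact ⟨insert i B, mem_image_of_mem _ hB, mem_insert_of_mem hj⟩
    · have hR' : i ∉ R (dual g) := by rwa [R_dual hm]
      have h0' : ¬ dual g ∅ := by
        unfold dual
        rw [compl_empty, not_not]; exact h1
      unfold MaxT at hc ⊢
      rw [dual_and, MinT_and hm hiR, card_image_insert hiR, MinT_or hR' h0', card_insert_of_notMem,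
        card_insert_of_notMem hi]
      · omega
      · intro h
        exact hR' (min_subset_R h (mem_singleton_self i))
  | or i g T h hi ih =>
    obtain ⟨hm, h0, h1, hR, hc⟩ := ih
    have hiR : i ∉ R g := by rwa [hR]
    have hm' : Mono (fun X : Finset α => i ∈ X ∨ g X) :=
      fun X Y h hX => hX.imp (fun h' => h h') (fun h' => hm _ _ h h')
    refine ⟨hm', fun h => ?_, Or.inl (mem_univ i), ?_, ?_⟩
    · rcases h with h | h
      · exact notMem_empty i h
      · exact h0 h
    · ext j
      rw [mem_R_iff hm', MinT_or hiR h0, mem_insert, ← hR, mem_R_iff hm]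
      constructor
      · rintro ⟨A, hA, hj⟩
        rw [mem_insert] at hA
        rcases hA with rfl | hA
        · exact Or.inl (mem_singleton.1 hj)
        · exact Or.inr ⟨A, hA, hj⟩
      · rintro (rfl | ⟨B, hB, hj⟩)
        · exact ⟨{j}, mem_insert_self _ _, mem_singleton_self _⟩
        · exact ⟨B, mem_insert_of_mem hB, hj⟩
    · have hR' : i ∉ R (dual g) := by rwa [R_dual hm]
      unfold MaxT at hc ⊢
      rw [dual_or, MinT_and (dual_mono hm) hR', card_image_insert hR', MinT_or hiR h0,
        card_insert_of_notMem, card_insert_of_notMem hi]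
      · omega
      · intro h
        exact hiR (min_subset_R h (mem_singleton_self i))

theorem Nest.dual {f : Finset α → Prop} {T : Finset α} (h : Nest f T) : Nest (dual f) T := by
  induction h with
  | var i => rw [dual_var]; exact Nest.var i
  | and i g T h hi ih => rw [dual_and]; exact Nest.or i _ T ih hi
  | or i g T h hi ih => rw [dual_or]; exact Nest.and i _ T ih hi

theorem Nest.single {f : Finset α → Prop} {T : Finset α} (h : Nest f T) :
    (∃ j, f {j}) ∨ ∃ j, ¬ f {j}ᶜ := by
  cases h with
  | var i => exact Or.inl ⟨i, mem_singleton_self i⟩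
  | and i g T h hi => exact Or.inr ⟨i, fun h => by simp at h⟩
  | or i g T h hi => exact Or.inl ⟨i, Or.inl (mem_singleton_self i)⟩

/-! ### Functions without singletons -/

theorem inter_count {H : Finset (Finset α)} {V : Finset α} (h2 : ∀ e ∈ H, e.card = 2)
    (hcov : ∀ i ∈ V, ∃ e ∈ H, i ∈ e) (hint : ∀ e ∈ H, ∀ e' ∈ H, ¬ Disjoint e e') :
    V.card ≤ H.card + 1 := by
  rcases V.eq_empty_or_nonempty with rfl | ⟨i₀, hi₀⟩
  · simp
  obtain ⟨e₀, he₀, -⟩ := hcov i₀ hi₀
  choose! E hE hE' using hcov
  have h1 : (V \ e₀).card ≤ (H.erase e₀).card := by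
    apply card_le_card_of_injOn E
    · intro v hv
      rw [mem_coe, mem_sdiff] at hv
      rw [mem_coe, mem_erase]
      refine ⟨?_, hE v hv.1⟩
      intro h
      exact hv.2 (h ▸ hE' v hv.1)
    · intro v hv v' hv' h
      rw [mem_coe, mem_sdiff] at hv hv'
      by_contra hne
      have hd := hint (E v) (hE v hv.1) e₀ he₀
      rw [Finset.not_disjoint_iff] at hd
      obtain ⟨x, hx, hx0⟩ := hd
      have h3 : 3 ≤ (E v).card := by
        have : ({v, v', x} : Finset α) ⊆ E v := by
          intro y hy
          rw [mem_insert, mem_insert, mem_singleton] at hy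
          rcases hy with rfl | rfl | rfl
          · exact hE' _ hv.1
          · have h' : E v = E y := h
            rw [h']; exact hE' _ hv'.1
          · exact hx
        calc 3 = ({v, v', x} : Finset α).card := by
              rw [card_insert_of_notMem, card_pair]
              · rintro rfl; exact hv'.2 hx0
              · rw [mem_insert, mem_singleton]
                rintro (h' | rfl)
                · exact hne h'
                · exact hv.2 hx0
          _ ≤ _ := card_le_card this
      rw [h2 _ (hE v hv.1)] at h3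
      omega
  rw [card_erase_of_mem he₀] at h1
  have h3 : V.card ≤ (V \ e₀).card + e₀.card := by
    have := card_le_card_sdiff_add_card (s := V) (t := e₀)
    exact this
  rw [h2 e₀ he₀] at h3
  have h4 : 0 < H.card := card_pos.2 ⟨e₀, he₀⟩
  omega

theorem pair_ne {a b x y : α} (h1 : a ≠ x) (h2 : a ≠ y) : ({a, b} : Finset α) ≠ {x, y} := by
  intro h
  have : a ∈ ({x, y} : Finset α) := h ▸ mem_insert_self _ _
  rw [mem_insert, mem_singleton] at this
  tauto

theorem pair_ne' {a b x y : α} (h1 : b ≠ x) (h2 : b ≠ y) : ({a, b} : Finset α) ≠ {x, y} := by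
  intro h
  have : b ∈ ({x, y} : Finset α) := h ▸ (by simp)
  rw [mem_insert, mem_singleton] at this
  tauto

theorem g_mem {f : Finset α → Prop} (h1 : ∀ i, ¬ f {i}) {i j : α} (hij : i ≠ j)
    (h : f {i, j}) : {i, j} ∈ MinT f := by
  rw [mem_MinT]
  refine ⟨h, fun k hk => ?_⟩
  rw [mem_insert, mem_singleton] at hk
  rcases hk with rfl | rfl
  · rw [erase_insert]
    · exact h1 j
    · rwa [mem_singleton]
  · rw [pair_comm, erase_insert]
    · exact h1 i
    · rw [mem_singleton]; exact Ne.symm hij

theorem h_mem {f : Finset α → Prop} (h2 : ∀ i, f {i}ᶜ) {i j : α} (hij : i ≠ j)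
    (h : ¬ f {i, j}ᶜ) : {i, j} ∈ MaxT f := by
  unfold MaxT
  refine g_mem (fun k hk => ?_) hij h
  exact hk (h2 k)

theorem two_le {s : Finset (Finset α)} {A B : Finset α} (hA : A ∈ s) (hB : B ∈ s) (h : A ≠ B) :
    2 ≤ s.card := by
  have : ({A, B} : Finset (Finset α)) ⊆ s := by
    intro x hx
    rw [mem_insert, mem_singleton] at hx
    rcases hx with rfl | rfl <;> assumption
  calc 2 = ({A, B} : Finset (Finset α)).card := (card_pair h).symm
    _ ≤ _ := card_le_card this

theorem three_le {s : Finset (Finset α)} {A B C : Finset α} (hA : A ∈ s) (hB : B ∈ s) (hC : C ∈ s)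
    (h1 : A ≠ B) (h2 : A ≠ C) (h3 : B ≠ C) : 3 ≤ s.card := by
  have h4 := two_le (mem_erase.2 ⟨Ne.symm h1, hB⟩) (mem_erase.2 ⟨Ne.symm h2, hC⟩) h3
  rw [card_erase_of_mem hA] at h4
  omega

theorem four_le {s : Finset (Finset α)} {A B C D : Finset α} (hA : A ∈ s) (hB : B ∈ s) (hC : C ∈ s)
    (hD : D ∈ s) (h1 : A ≠ B) (h2 : A ≠ C) (h3 : A ≠ D) (h4 : B ≠ C) (h5 : B ≠ D) (h6 : C ≠ D) :
    4 ≤ s.card := by
  have h7 := three_le (mem_erase.2 ⟨Ne.symm h1, hB⟩) (mem_erase.2 ⟨Ne.symm h2, hC⟩)
    (mem_erase.2 ⟨Ne.symm h3, hD⟩) h4 h5 h6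
  rw [card_erase_of_mem hA] at h7
  omega

/-- The case of two crossing perfect matchings on four elements. -/
theorem six_le {f : Finset α → Prop} (hf : Mono f) (h1 : ∀ i, ¬ f {i}) (h2 : ∀ i, f {i}ᶜ)
    {c d p q : α} (hcd : c ≠ d) (hcp : c ≠ p) (hcq : c ≠ q) (hdp : d ≠ p) (hdq : d ≠ q)
    (hpq : p ≠ q) (e1 : ¬ f {c, d}ᶜ) (e2 : ¬ f {p, q}ᶜ) (e3 : f {c, p}) (e4 : f {d, q})
    (hR : R f ⊆ {c, d, p, q}) : 6 ≤ (MinT f).card + (MaxT f).card := by
  have m1 := h_mem h2 hcd e1
  have m2 := h_mem h2 hpq e2
  have m3 := g_mem h1 hcp e3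
  have m4 := g_mem h1 hdq e4
  have a1 : f {c, q} ∨ ¬ f {d, p}ᶜ := by
    by_contra hcon
    push Not at hcon
    apply hcon.1
    refine hf _ _ ?_ (f_inter_R hf hcon.2)
    intro x hx
    rw [mem_inter, mem_compl] at hx
    have := hR hx.2
    simp only [mem_insert, mem_singleton] at this hx ⊢
    tauto
  have a2 : f {d, p} ∨ ¬ f {c, q}ᶜ := by
    by_contra hcon
    push Not at hcon
    apply hcon.1
    refine hf _ _ ?_ (f_inter_R hf hcon.2)
    intro x hx
    rw [mem_inter, mem_compl] at hx
    have := hR hx.2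
    simp only [mem_insert, mem_singleton] at this hx ⊢
    tauto
  have n1 : ({c, p} : Finset α) ≠ {d, q} := pair_ne hcd hcq
  have n2 : ({c, d} : Finset α) ≠ {p, q} := pair_ne hcp hcq
  have n3 : ({c, p} : Finset α) ≠ {c, q} := pair_ne' (Ne.symm hcp) hpq
  have n4 : ({c, p} : Finset α) ≠ {d, p} := pair_ne hcd hcp
  have n5 : ({d, q} : Finset α) ≠ {c, q} := pair_ne (Ne.symm hcd) hdq
  have n6 : ({d, q} : Finset α) ≠ {d, p} := pair_ne' (Ne.symm hdq) (Ne.symm hpq)
  have n7 : ({c, q} : Finset α) ≠ {d, p} := pair_ne hcd hcp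
  have n8 : ({c, d} : Finset α) ≠ {c, q} := pair_ne' (Ne.symm hcd) hdq
  have n9 : ({c, d} : Finset α) ≠ {d, p} := pair_ne hcd hcp
  have n10 : ({p, q} : Finset α) ≠ {c, q} := pair_ne (Ne.symm hcp) hpq
  have n11 : ({p, q} : Finset α) ≠ {d, p} := pair_ne' (Ne.symm hdq) (Ne.symm hpq)
  rcases a1 with a1 | a1 <;> rcases a2 with a2 | a2
  · have m5 := g_mem h1 hcq a1
    have m6 := g_mem h1 hdp a2
    have := four_le m3 m4 m5 m6 n1 n3 n4 n5 n6 n7
    have := two_le m1 m2 n2
    omega
  · have m5 := g_mem h1 hcq a1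
    have m6 := h_mem h2 hcq a2
    have := three_le m3 m4 m5 n1 n3 n5
    have := three_le m1 m2 m6 n2 n8 n10
    omega
  · have m5 := h_mem h2 hdp a1
    have m6 := g_mem h1 hdp a2
    have := three_le m3 m4 m6 n1 n4 n6
    have := three_le m1 m2 m5 n2 n9 n11
    omega
  · have m5 := h_mem h2 hdp a1
    have m6 := h_mem h2 hcq a2
    have := two_le m3 m4 n1
    have := four_le m1 m2 m6 m5 n2 n8 n9 n10 n11 n7
    omega

theorem cross {f : Finset α → Prop} (hf : Mono f) {A C : Finset α} (hA : A ∈ MinT f)
    (hC : C ∈ MaxT f) : ¬ Disjoint C A := fun h => not_f_of_max hf hC h (mem_MinT.1 hA).1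

/-- If two disjoint pairs are maxterms, then there are at least six extremal points, and at most
four relevant elements. -/
theorem disjoint_case {f : Finset α → Prop} (hf : Mono f) (h1 : ∀ i, ¬ f {i}) (h2 : ∀ i, f {i}ᶜ)
    (h3 : ∀ i ∈ R f, ∃ j, j ≠ i ∧ f {i, j})
    {e e' : Finset α} (he : e ∈ MaxT f) (he' : e' ∈ MaxT f) (hc : e.card = 2) (hc' : e'.card = 2)
    (hd : Disjoint e e') : (R f).card + 2 ≤ (MinT f).card + (MaxT f).card := by
  rw [card_eq_two] at hc hc'
  obtain ⟨c, d, hcd, rfl⟩ := hc
  obtain ⟨p, q, hpq, rfl⟩ := hc'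
  have hcp : c ≠ p := by
    rintro rfl
    exact Finset.disjoint_left.1 hd (by simp : c ∈ _) (by simp)
  have hcq : c ≠ q := by
    rintro rfl
    exact Finset.disjoint_left.1 hd (by simp : c ∈ _) (by simp)
  have hdp : d ≠ p := by
    rintro rfl
    exact Finset.disjoint_left.1 hd (by simp : d ∈ _) (by simp)
  have hdq : d ≠ q := by
    rintro rfl
    exact Finset.disjoint_left.1 hd (by simp : d ∈ _) (by simp)
  have hpair : ∀ i j, j ≠ i → f {i, j} →
      ((i = c ∨ i = d) ∧ (j = p ∨ j = q)) ∨ ((j = c ∨ j = d) ∧ (i = p ∨ i = q)) := by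
    intro i j hji hf'
    have hm := g_mem h1 (Ne.symm hji) hf'
    have x1 := cross hf hm he
    have x2 := cross hf hm he'
    rw [Finset.not_disjoint_iff] at x1 x2
    obtain ⟨x, hx, hx'⟩ := x1
    obtain ⟨y, hy, hy'⟩ := x2
    simp only [mem_insert, mem_singleton] at hx hx' hy hy'
    rcases hx with rfl | rfl <;> rcases hx' with rfl | rfl <;> rcases hy with rfl | rfl <;>
      rcases hy' with rfl | rfl <;> simp_all
  have hR : R f ⊆ {c, d, p, q} := by
    intro i hi
    obtain ⟨j, hji, hfj⟩ := h3 i hi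
    have := hpair i j hji hfj
    simp only [mem_insert, mem_singleton]
    tauto
  have hRc : (R f).card ≤ 4 := (card_le_card hR).trans card_le_four
  have hcR : c ∈ R f := max_subset_R hf he (by simp)
  have hdR : d ∈ R f := max_subset_R hf he (by simp)
  have hpR : p ∈ R f := max_subset_R hf he' (by simp)
  have hqR : q ∈ R f := max_subset_R hf he' (by simp)
  have b1 : f {c, p} ∨ f {c, q} := by
    obtain ⟨j, hji, hfj⟩ := h3 c hcR
    rcases hpair c j hji hfj with ⟨-, rfl | rfl⟩ | ⟨-, h | h⟩
    · exact Or.inl hfj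
    · exact Or.inr hfj
    · exact absurd h hcp
    · exact absurd h hcq
  have b2 : f {d, p} ∨ f {d, q} := by
    obtain ⟨j, hji, hfj⟩ := h3 d hdR
    rcases hpair d j hji hfj with ⟨-, rfl | rfl⟩ | ⟨-, h | h⟩
    · exact Or.inl hfj
    · exact Or.inr hfj
    · exact absurd h hdp
    · exact absurd h hdq
  have b3 : f {c, p} ∨ f {d, p} := by
    obtain ⟨j, hji, hfj⟩ := h3 p hpR
    rcases hpair p j hji hfj with ⟨h | h, -⟩ | ⟨rfl | rfl, -⟩
    · exact absurd h (Ne.symm hcp)
    · exact absurd h (Ne.symm hdp)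
    · rw [pair_comm] at hfj; exact Or.inl hfj
    · rw [pair_comm] at hfj; exact Or.inr hfj
  have b4 : f {c, q} ∨ f {d, q} := by
    obtain ⟨j, hji, hfj⟩ := h3 q hqR
    rcases hpair q j hji hfj with ⟨h | h, -⟩ | ⟨rfl | rfl, -⟩
    · exact absurd h (Ne.symm hcq)
    · exact absurd h (Ne.symm hdq)
    · rw [pair_comm] at hfj; exact Or.inl hfj
    · rw [pair_comm] at hfj; exact Or.inr hfj
  have e1 := (mem_MaxT.1 he).1
  have e2 := (mem_MaxT.1 he').1
  have h6 : 6 ≤ (MinT f).card + (MaxT f).card := by
    by_cases hA : f {c, p} ∧ f {d, q}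
    · exact six_le hf h1 h2 hcd hcp hcq hdp hdq hpq e1 e2 hA.1 hA.2 hR
    · have hB : f {c, q} ∧ f {d, p} := by tauto
      refine six_le hf h1 h2 hcd hcq hcp hdq hdp (Ne.symm hpq) e1 (by rwa [pair_comm q p]) hB.1 hB.2 ?_
      intro x hx
      have := hR hx
      simp only [mem_insert, mem_singleton] at this ⊢
      tauto
  omega

theorem no_single {f : Finset α → Prop} (hf : Mono f) (h0 : ¬ f ∅) (h0' : f univ)
    (h1 : ∀ i, ¬ f {i}) (h2 : ∀ i, f {i}ᶜ)
    (h3 : ∀ i ∈ R f, ∃ j, j ≠ i ∧ f {i, j}) (h4 : ∀ i ∈ R f, ∃ j, j ≠ i ∧ ¬ f {i, j}ᶜ) :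
    (R f).card + 2 ≤ (MinT f).card + (MaxT f).card := by
  by_cases hH : ∃ e ∈ MaxT f, ∃ e' ∈ MaxT f, e.card = 2 ∧ e'.card = 2 ∧ Disjoint e e'
  · obtain ⟨e, he, e', he', hc, hc', hd⟩ := hH
    exact disjoint_case hf h1 h2 h3 he he' hc hc' hd
  by_cases hG : ∃ e ∈ MinT f, ∃ e' ∈ MinT f, e.card = 2 ∧ e'.card = 2 ∧ Disjoint e e'
  · obtain ⟨e, he, e', he', hc, hc', hd⟩ := hG
    rw [← MaxT_dual] at he he'
    have := disjoint_case (dual_mono hf) (fun i h => h (h2 i))
      (fun i => by unfold dual; rw [compl_compl]; exact h1 i)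
      (fun i hi => by rw [R_dual hf] at hi; exact h4 i hi) he he' hc hc' hd
    rw [R_dual hf, MaxT_dual] at this
    have h5 : (MinT (dual f)).card = (MaxT f).card := rfl
    omega
  -- both families of pairs are intersecting
  have c1 : (R f).card ≤ ((MaxT f).filter (fun e => e.card = 2)).card + 1 := by
    apply inter_count
    · intro e he
      exact (mem_filter.1 he).2
    · intro i hi
      obtain ⟨j, hji, hj⟩ := h4 i hi
      exact ⟨{i, j}, mem_filter.2 ⟨h_mem h2 (Ne.symm hji) hj, card_pair (Ne.symm hji)⟩, by simp⟩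
    · intro e he e' he' hd
      rw [mem_filter] at he he'
      exact hH ⟨e, he.1, e', he'.1, he.2, he'.2, hd⟩
  have c2 : (R f).card ≤ ((MinT f).filter (fun e => e.card = 2)).card + 1 := by
    apply inter_count
    · intro e he
      exact (mem_filter.1 he).2
    · intro i hi
      obtain ⟨j, hji, hj⟩ := h3 i hi
      exact ⟨{i, j}, mem_filter.2 ⟨g_mem h1 (Ne.symm hji) hj, card_pair (Ne.symm hji)⟩, by simp⟩
    · intro e he e' he' hd
      rw [mem_filter] at he he'
      exact hG ⟨e, he.1, e', he'.1, he.2, he'.2, hd⟩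
  have c3 : ((MaxT f).filter (fun e => e.card = 2)).card ≤ (MaxT f).card := card_filter_le _ _
  have c4 : ((MinT f).filter (fun e => e.card = 2)).card ≤ (MinT f).card := card_filter_le _ _
  have herase : ∀ i ∈ R f, f ((R f).erase i) := by
    intro i _
    refine hf _ _ ?_ (f_inter_R hf (h2 i))
    intro x hx
    rw [mem_inter, mem_compl, mem_singleton] at hx
    exact mem_erase.2 hx
  have hne : (R f).Nonempty := by
    rw [Finset.nonempty_iff_ne_empty]
    intro h
    apply h0
    have := f_inter_R hf h0'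
    rwa [h, inter_empty] at this
  by_cases h5 : 4 ≤ (R f).card
  · omega
  · have h6 : 0 < (R f).card := card_pos.2 hne
    obtain ⟨i, hi⟩ := hne
    have h7 := herase i hi
    have h8 : (R f).card = 1 ∨ (R f).card = 2 ∨ (R f).card = 3 := by omega
    rcases h8 with h8 | h8 | h8
    · exfalso
      have : (R f).erase i = ∅ := by
        rw [← card_eq_zero, card_erase_of_mem hi, h8]
      rw [this] at h7
      exact h0 h7
    · exfalso
      have : ((R f).erase i).card = 1 := by
        rw [card_erase_of_mem hi, h8]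
      rw [card_eq_one] at this
      obtain ⟨j, hj⟩ := this
      rw [hj] at h7
      exact h1 j h7
    · have h9 : (R f).card ≤ (MinT f).card := by
        apply card_le_card_of_injOn (fun i => (R f).erase i)
        · intro j hj
          rw [mem_coe] at hj
          rw [mem_coe]
          have hc : ((R f).erase j).card = 2 := by
            rw [card_erase_of_mem hj, h8]
          have hj' := herase j hj
          rw [card_eq_two] at hc
          obtain ⟨x, y, hxy, he⟩ := hc
          show (R f).erase j ∈ MinT f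
          rw [he] at hj' ⊢
          exact g_mem h1 hxy hj'
        · exact erase_injOn (R f)
      omega

/-! ### The main induction -/

theorem R_low {f : Finset α → Prop} (i : α) : R (low i f) ⊆ (R f).erase i := by
  intro j hj
  rw [mem_R] at hj
  obtain ⟨X, h1, h2⟩ := hj
  unfold low at h1 h2
  have hji : j ≠ i := by
    rintro rfl
    rw [erase_insert_eq_erase] at h1
    exact h2 h1
  rw [mem_erase]
  refine ⟨hji, mem_R.2 ⟨X.erase i, ?_, h2⟩⟩
  rwa [← erase_insert_of_ne (Ne.symm hji).symm] 

theorem low_facts {f : Finset α → Prop} (hf : Mono f)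
    (heq : (MinT f).card + (MaxT f).card = (R f).card + 1) {i : α} (hi : i ∈ R f) :
    (MinT (low i f)).card + (MaxT (low i f)).card = (R (low i f)).card + 1 ∧
      (R (low i f)).card < (R f).card := by
  refine ⟨le_antisymm (low_le hf heq hi) (ext_ge (low_mono hf i)), ?_⟩
  calc (R (low i f)).card ≤ ((R f).erase i).card := card_le_card (R_low i)
    _ < _ := card_erase_lt_of_mem hi

/-- induction hypothesis -/
def IH (α : Type*) [Fintype α] [DecidableEq α] (n : ℕ) : Prop :=
  ∀ f : Finset α → Prop, Mono f → ¬ f ∅ → f univ →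
    (MinT f).card + (MaxT f).card = (R f).card + 1 → (R f).card < n → Nest f (R f)

theorem caseA {f : Finset α → Prop} (hf : Mono f) (h0 : ¬ f ∅)
    (heq : (MinT f).card + (MaxT f).card = (R f).card + 1) (ih : IH α (R f).card) {i : α}
    (hi : f {i}) : Nest f (R f) := by
  have hiR : i ∈ R f := by
    rw [mem_R]
    exact ⟨∅, by simpa using hi, h0⟩
  have hfun : f = fun X => i ∈ X ∨ low i f X := by
    funext X
    apply propext
    constructor
    · intro h
      by_cases hiX : i ∈ X
      · exact Or.inl hiX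
      · right
        unfold low
        rwa [erase_eq_of_notMem hiX]
    · rintro (h | h)
      · exact hf _ _ (singleton_subset_iff.2 h) hi
      · exact hf _ _ (erase_subset _ _) h
  by_cases hl : low i f univ
  · obtain ⟨h1, h2⟩ := low_facts hf heq hiR
    have h3 := ih (low i f) (low_mono hf i) (by unfold low; rwa [erase_empty]) hl h1 h2
    have h4 := Nest.or i _ _ h3 (fun h => (mem_erase.1 (R_low i h)).1 rfl)
    rw [← hfun] at h4
    rwa [h4.facts.2.2.2.1]
  · have hfun2 : f = fun X => i ∈ X := by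
      rw [hfun]
      funext X
      apply propext
      constructor
      · rintro (h | h)
        · exact h
        · exact absurd (low_mono hf i _ _ (subset_univ _) h) hl
      · exact Or.inl
    have h4 := Nest.var i
    rw [← hfun2] at h4
    rwa [h4.facts.2.2.2.1]

theorem caseC {f : Finset α → Prop} (hf : Mono f) (h0 : ¬ f ∅)
    (heq : (MinT f).card + (MaxT f).card = (R f).card + 1) (ih : IH α (R f).card)
    (h1 : ∀ i, ¬ f {i}) (h2 : ∀ i, f {i}ᶜ) : ∀ i ∈ R f, ∃ j, j ≠ i ∧ ¬ f {i, j}ᶜ := by
  intro i hi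
  obtain ⟨a1, a2⟩ := low_facts hf heq hi
  have a3 : low i f univ := by
    unfold low
    have := h2 i
    rwa [← sdiff_singleton_eq_erase, ← compl_eq_univ_sdiff]
  have a4 := ih (low i f) (low_mono hf i) (by unfold low; rwa [erase_empty]) a3 a1 a2
  rcases a4.single with ⟨j, hj⟩ | ⟨j, hj⟩
  · exact absurd (hf _ _ (erase_subset _ _) hj) (h1 j)
  · unfold low at hj
    refine ⟨j, ?_, ?_⟩
    · rintro rfl
      apply hj
      rw [erase_eq_of_notMem (by simp)]
      exact h2 j
    · intro h
      apply hj
      refine hf _ _ ?_ h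
      intro x hx
      simp only [mem_compl, mem_insert, mem_singleton, not_or] at hx
      simp only [mem_erase, mem_compl, mem_singleton]
      exact hx

theorem main_ih (n : ℕ) : IH α n := by
  induction n with
  | zero => intro f _ _ _ _ h; omega
  | succ n ih =>
    intro f hf h0 h0' heq hlt
    have ih' : IH α (R f).card := by
      intro g a b c d e
      exact ih g a b c d (by omega)
    have heqd : (MinT (dual f)).card + (MaxT (dual f)).card = (R (dual f)).card + 1 := by
      rw [MaxT_dual, R_dual hf, ← heq, add_comm]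
      rfl
    have ihd : IH α (R (dual f)).card := by rwa [R_dual hf]
    have h0d : ¬ dual f ∅ := by
      unfold dual
      rw [compl_empty, not_not]; exact h0'
    by_cases hA : ∃ i, f {i}
    · obtain ⟨i, hi⟩ := hA
      exact caseA hf h0 heq ih' hi
    by_cases hB : ∃ i, ¬ f {i}ᶜ
    · obtain ⟨i, hi⟩ := hB
      have := (caseA (dual_mono hf) h0d heqd ihd (i := i) hi).dual
      rwa [dual_dual, R_dual hf] at this
    exfalso
    push Not at hA hB
    have h4 := caseC hf h0 heq ih' hA hB
    have h3 := caseC (dual_mono hf) h0d heqd ihd (fun i h => h (hB i))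
      (fun i => by unfold dual; rw [compl_compl]; exact hA i)
    rw [R_dual hf] at h3
    have := no_single hf h0 h0' hA hB (fun i hi => by
      obtain ⟨j, hj, hj'⟩ := h3 i hi
      refine ⟨j, hj, ?_⟩
      unfold dual at hj'
      rw [compl_compl, not_not] at hj'
      exact hj') h4
    omega

theorem main_set {f : Finset α → Prop} (hf : Mono f) (h0 : ¬ f ∅) (h0' : f univ) :
    (MinT f).card + (MaxT f).card = (R f).card + 1 ↔ Nest f (R f) :=
  ⟨fun h => main_ih ((R f).card + 1) f hf h0 h0' h (Nat.lt_succ_self _), fun h => h.facts.2.2.2.2⟩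

/-! ### Boolean form -/

variable {m : ℕ}

/-- `x` is a minimal one of `f`. -/
def IsMinOne (f : (Fin m → Bool) → Bool) (x : Fin m → Bool) : Prop :=
  f x = true ∧ ∀ y, y < x → f y = false

/-- `x` is a maximal zero of `f`. -/
def IsMaxZero (f : (Fin m → Bool) → Bool) (x : Fin m → Bool) : Prop :=
  f x = false ∧ ∀ y, x < y → f y = true

/-- The number of extremal points of `f`: minimal ones and maximal zeros. -/
noncomputable def ext (f : (Fin m → Bool) → Bool) : ℕ :=
  Set.ncard {x | IsMinOne f x ∨ IsMaxZero f x}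

/-- The variable `x_i` is relevant for `f`: two points differing only in coordinate `i` have
different values. -/
def Relevant (f : (Fin m → Bool) → Bool) (i : Fin m) : Prop :=
  ∃ x y : Fin m → Bool, (∀ j, j ≠ i → x j = y j) ∧ f x ≠ f y

/-- The number of relevant variables. -/
noncomputable def numRelevant (f : (Fin m → Bool) → Bool) : ℕ := Set.ncard {i | Relevant f i}

/-- `nest [(i₁, o₁), …, (iₖ, oₖ)] i` is `x_{i₁} o₁ (x_{i₂} o₂ (⋯ (x_{iₖ} oₖ x_i)))`, where `true`
stands for the conjunction and `false` for the disjunction. -/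
def nest : List (Fin m × Bool) → Fin m → (Fin m → Bool) → Bool
  | [], i, x => x i
  | (j, true) :: l, i, x => x j && nest l i x
  | (j, false) :: l, i, x => x j || nest l i x

/-- `f` is linear read-once: it is constant, or its relevant variables can be listed as
`x_{i₁}, …, x_{iₖ}` such that `f = x_{i₁} o₁ (x_{i₂} o₂ (⋯ x_{iₖ}))`. -/
def IsLinearReadOnce (f : (Fin m → Bool) → Bool) : Prop :=
  (∃ b, ∀ x, f x = b) ∨ ∃ (l : List (Fin m × Bool)) (i : Fin m),
    (l.map Prod.fst ++ [i]).Nodup ∧ (∀ j, Relevant f j ↔ j ∈ l.map Prod.fst ++ [i]) ∧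
      ∀ x, f x = nest l i x

/-- indicator vector -/
def ind (X : Finset (Fin m)) : Fin m → Bool := fun i => decide (i ∈ X)

/-- support -/
def supp (x : Fin m → Bool) : Finset (Fin m) := univ.filter (fun i => x i = true)

theorem ind_supp (x : Fin m → Bool) : ind (supp x) = x := by
  funext i
  unfold ind supp
  cases h : x i <;> simp [h]

theorem supp_ind (X : Finset (Fin m)) : supp (ind X) = X := by
  ext i
  unfold ind supp
  simp

theorem mem_supp {x : Fin m → Bool} {i : Fin m} : i ∈ supp x ↔ x i = true := by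
  unfold supp; simp

theorem supp_subset {x y : Fin m → Bool} : supp x ⊆ supp y ↔ x ≤ y := by
  constructor
  · intro h i
    by_cases hx : x i = true
    · have := h (mem_supp.2 hx)
      rw [mem_supp] at this
      rw [hx, this]
    · rw [Bool.not_eq_true] at hx
      rw [hx]
      exact Bool.false_le _
  · intro h i hi
    rw [mem_supp] at hi ⊢
    have := h i
    rw [hi] at this
    exact Bool.eq_true_of_true_le this

theorem supp_injective : Function.Injective (supp (m := m)) := by
  intro x y h
  rw [← ind_supp x, ← ind_supp y, h]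

theorem ind_injective : Function.Injective (ind (m := m)) := by
  intro x y h
  rw [← supp_ind x, ← supp_ind y, h]

/-- set form of a Boolean function -/
def F (f : (Fin m → Bool) → Bool) : Finset (Fin m) → Prop := fun X => f (ind X) = true

theorem F_supp (f : (Fin m → Bool) → Bool) (x : Fin m → Bool) : F f (supp x) ↔ f x = true := by
  unfold F; rw [ind_supp]

theorem F_mono {f : (Fin m → Bool) → Bool} (hf : Monotone f) : Mono (F f) := by
  intro X Y h hX
  unfold F at *
  have h' : ind X ≤ ind Y := by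
    rw [← supp_subset, supp_ind, supp_ind]; exact h
  have := hf h'
  rw [hX] at this
  exact Bool.eq_true_of_true_le this

theorem isMinOne_iff {f : (Fin m → Bool) → Bool} (hf : Monotone f) (x : Fin m → Bool) :
    IsMinOne f x ↔ supp x ∈ MinT (F f) := by
  rw [mem_MinT, F_supp]
  unfold IsMinOne
  refine and_congr_right fun _ => ?_
  constructor
  · intro h i hi hF
    have hlt : ind ((supp x).erase i) < x := by
      rw [lt_iff_le_and_ne]
      constructor
      · rw [← supp_subset, supp_ind]
        exact erase_subset _ _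
      · intro h'
        have : supp (ind ((supp x).erase i)) = supp x := by rw [h']
        rw [supp_ind, erase_eq_self] at this
        exact this hi
    have := h _ hlt
    unfold F at hF
    rw [this] at hF
    exact Bool.false_ne_true hF
  · intro h y hy
    rw [lt_iff_le_and_ne] at hy
    obtain ⟨h1, h2⟩ := hy
    rw [← supp_subset] at h1
    have h3 : supp y ≠ supp x := fun h' => h2 (supp_injective h')
    obtain ⟨i, hi, hi'⟩ := exists_of_ssubset (h1.ssubset_of_ne h3)
    by_contra hcon
    rw [Bool.not_eq_false, ← F_supp] at hcon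
    refine h i hi (F_mono hf _ _ ?_ hcon)
    intro j hj
    rw [mem_erase]
    refine ⟨?_, h1 hj⟩
    rintro rfl
    exact hi' hj

theorem isMaxZero_iff {f : (Fin m → Bool) → Bool} (hf : Monotone f) (x : Fin m → Bool) :
    IsMaxZero f x ↔ (supp x)ᶜ ∈ MaxT (F f) := by
  rw [mem_MaxT, compl_compl, F_supp]
  unfold IsMaxZero
  rw [Bool.not_eq_true]
  refine and_congr_right fun _ => ?_
  constructor
  · intro h i hi
    rw [mem_compl] at hi
    have hlt : x < ind (insert i (supp x)) := by
      rw [lt_iff_le_and_ne]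
      constructor
      · rw [← supp_subset, supp_ind]
        exact subset_insert _ _
      · intro h'
        have : supp x = supp (ind (insert i (supp x))) := by rw [← h']
        rw [supp_ind] at this
        apply hi
        rw [this]
        exact mem_insert_self _ _
    exact h _ hlt
  · intro h y hy
    rw [lt_iff_le_and_ne] at hy
    obtain ⟨h1, h2⟩ := hy
    rw [← supp_subset] at h1
    have h3 : supp x ≠ supp y := fun h' => h2 (supp_injective h')
    obtain ⟨i, hi, hi'⟩ := exists_of_ssubset (h1.ssubset_of_ne h3)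
    rw [← F_supp]
    refine F_mono hf _ _ ?_ (h i (mem_compl.2 hi'))
    intro j hj
    rw [mem_insert] at hj
    rcases hj with rfl | hj
    · exact hi
    · exact h1 hj

theorem ext_eq {f : (Fin m → Bool) → Bool} (hf : Monotone f) :
    ext f = (MinT (F f)).card + (MaxT (F f)).card := by
  unfold ext
  have h1 : {x | IsMinOne f x} = ind '' (MinT (F f) : Set (Finset (Fin m))) := by
    ext x
    rw [Set.mem_setOf_eq, isMinOne_iff hf, Set.mem_image]
    constructor
    · intro h
      exact ⟨supp x, h, ind_supp x⟩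
    · rintro ⟨X, hX, rfl⟩
      rw [supp_ind]; exact hX
  have h2 : {x | IsMaxZero f x} = (fun X => ind Xᶜ) '' (MaxT (F f) : Set (Finset (Fin m))) := by
    ext x
    rw [Set.mem_setOf_eq, isMaxZero_iff hf, Set.mem_image]
    constructor
    · intro h
      exact ⟨(supp x)ᶜ, h, by rw [compl_compl, ind_supp]⟩
    · rintro ⟨X, hX, rfl⟩
      rw [supp_ind, compl_compl]; exact hX
  rw [Set.setOf_or, Set.ncard_union_eq]
  · rw [h1, h2, Set.ncard_image_of_injective _ ind_injective, Set.ncard_image_of_injective,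
      Set.ncard_coe_finset, Set.ncard_coe_finset]
    intro X Y h
    exact compl_injective (ind_injective h)
  · rw [Set.disjoint_left]
    rintro x ⟨hx, -⟩ ⟨hx', -⟩
    rw [hx] at hx'
    exact Bool.false_ne_true hx'.symm

theorem relevant_iff {f : (Fin m → Bool) → Bool} (hf : Monotone f) (i : Fin m) :
    Relevant f i ↔ i ∈ R (F f) := by
  rw [mem_R]
  constructor
  · rintro ⟨x, y, hxy, hne⟩
    have key : ∀ x y : Fin m → Bool, (∀ j, j ≠ i → x j = y j) → f x = true → f y = false →
        ∃ X, F f (insert i X) ∧ ¬ F f X := by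
      intro x y hxy hx hy
      refine ⟨(supp y).erase i, ?_, ?_⟩
      · rw [← F_supp] at hx
        refine F_mono hf _ _ ?_ hx
        intro j hj
        rw [mem_insert, mem_erase]
        by_cases hji : j = i
        · exact Or.inl hji
        · right
          refine ⟨hji, ?_⟩
          rw [mem_supp] at hj ⊢
          rw [← hxy j hji]; exact hj
      · intro h
        have := F_mono hf _ _ (erase_subset _ _) h
        rw [F_supp, hy] at this
        exact Bool.false_ne_true this
    cases hx : f x
    · have hy : f y = true := by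
        cases hy : f y
        · rw [hx, hy] at hne; exact absurd rfl hne
        · rfl
      exact key y x (fun j hj => (hxy j hj).symm) hy hx
    · have hy : f y = false := by
        cases hy : f y
        · rfl
        · rw [hx, hy] at hne; exact absurd rfl hne
      exact key x y hxy hx hy
  · rintro ⟨X, h1, h2⟩
    refine ⟨ind (insert i X), ind X, ?_, ?_⟩
    · intro j hj
      unfold ind
      simp [hj]
    · intro h
      apply h2
      unfold F at *
      rw [← h]; exact h1

theorem numRelevant_eq {f : (Fin m → Bool) → Bool} (hf : Monotone f) :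
    numRelevant f = (R (F f)).card := by
  unfold numRelevant
  have : {i | Relevant f i} = (R (F f) : Set (Fin m)) := by
    ext i
    rw [Set.mem_setOf_eq, relevant_iff hf, mem_coe]
  rw [this, Set.ncard_coe_finset]

theorem nest_of_list (l : List (Fin m × Bool)) (i : Fin m) (h : (l.map Prod.fst ++ [i]).Nodup) :
    Nest (fun X => nest l i (ind X) = true) (l.map Prod.fst ++ [i]).toFinset := by
  induction l with
  | nil =>
    have h1 : (fun X : Finset (Fin m) => nest [] i (ind X) = true) = fun X => i ∈ X := by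
      funext X
      unfold nest ind
      simp
    rw [h1]
    simpa using Nest.var i
  | cons p l ih =>
    rw [List.map_cons, List.cons_append, List.nodup_cons] at h
    have ih' := ih h.2
    rw [List.map_cons, List.cons_append, List.toFinset_cons]
    have hp : p.1 ∉ (l.map Prod.fst ++ [i]).toFinset := by
      rw [List.mem_toFinset]; exact h.1
    obtain ⟨j, b⟩ := p
    cases b
    · have h1 : (fun X : Finset (Fin m) => nest ((j, false) :: l) i (ind X) = true) =
          fun X => j ∈ X ∨ nest l i (ind X) = true := by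
        funext X
        show ((ind X j || nest l i (ind X)) = true) = _
        unfold ind
        simp
      rw [h1]
      exact Nest.or j _ _ ih' hp
    · have h1 : (fun X : Finset (Fin m) => nest ((j, true) :: l) i (ind X) = true) =
          fun X => j ∈ X ∧ nest l i (ind X) = true := by
        funext X
        show ((ind X j && nest l i (ind X)) = true) = _
        unfold ind
        simp
      rw [h1]
      exact Nest.and j _ _ ih' hp

theorem list_of_nest {g : Finset (Fin m) → Prop} {T : Finset (Fin m)} (h : Nest g T) :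
    ∃ (l : List (Fin m × Bool)) (i : Fin m), (l.map Prod.fst ++ [i]).Nodup ∧
      (∀ j, j ∈ T ↔ j ∈ l.map Prod.fst ++ [i]) ∧ ∀ X, g X ↔ nest l i (ind X) = true := by
  induction h with
  | var i =>
    refine ⟨[], i, by simp, by simp, fun X => ?_⟩
    show i ∈ X ↔ ind X i = true
    unfold ind
    simp
  | and i g T h hi ih =>
    obtain ⟨l, k, h1, h2, h3⟩ := ih
    refine ⟨(i, true) :: l, k, ?_, ?_, fun X => ?_⟩
    · rw [List.map_cons, List.cons_append, List.nodup_cons]
      refine ⟨?_, h1⟩
      rw [← h2]; exact hi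
    · intro j
      rw [mem_insert, List.map_cons, List.cons_append, List.mem_cons, h2]
    · show (i ∈ X ∧ g X) ↔ (ind X i && nest l k (ind X)) = true
      rw [Bool.and_eq_true, ← h3]
      unfold ind
      simp
  | or i g T h hi ih =>
    obtain ⟨l, k, h1, h2, h3⟩ := ih
    refine ⟨(i, false) :: l, k, ?_, ?_, fun X => ?_⟩
    · rw [List.map_cons, List.cons_append, List.nodup_cons]
      refine ⟨?_, h1⟩
      rw [← h2]; exact hi
    · intro j
      rw [mem_insert, List.map_cons, List.cons_append, List.mem_cons, h2]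
    · show (i ∈ X ∨ g X) ↔ (ind X i || nest l k (ind X)) = true
      rw [Bool.or_eq_true, ← h3]
      unfold ind
      simp

/-- constant functions -/
theorem const_true {f : Finset α → Prop} (h : ∀ X, f X) :
    (MinT f).card + (MaxT f).card = (R f).card + 1 := by
  have h1 : MinT f = {∅} := by
    ext A
    rw [mem_MinT, mem_singleton]
    constructor
    · rintro ⟨-, h2⟩
      by_contra hne
      obtain ⟨i, hi⟩ := Finset.nonempty_iff_ne_empty.2 hne
      exact h2 i hi (h _)
    · rintro rfl
      exact ⟨h _, by simp⟩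
  have h2 : MaxT f = ∅ := by
    apply eq_empty_of_forall_notMem
    intro C hC
    exact (mem_MaxT.1 hC).1 (h _)
  have h3 : R f = ∅ := by
    apply eq_empty_of_forall_notMem
    intro i hi
    rw [mem_R] at hi
    obtain ⟨X, -, hX⟩ := hi
    exact hX (h _)
  rw [h1, h2, h3]
  simp

/-- **Main theorem.** A positive Boolean function has exactly one more extremal point than it has
relevant variables if and only if it is linear read-once. -/
theorem result (m : ℕ) (f : (Fin m → Bool) → Bool) (hf : Monotone f) :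
    ext f = numRelevant f + 1 ↔ IsLinearReadOnce f := by
  rw [ext_eq hf, numRelevant_eq hf]
  by_cases hc : ∃ b, ∀ x, f x = b
  · have h1 : IsLinearReadOnce f := Or.inl hc
    simp only [h1, iff_true]
    obtain ⟨b, hb⟩ := hc
    cases b
    · have h2 := const_true (f := dual (F f)) (fun X hX => by
        unfold F at hX
        rw [hb] at hX
        exact Bool.false_ne_true hX)
      rw [MaxT_dual, R_dual (F_mono hf)] at h2
      rw [← h2, add_comm]
      rfl
    · exact const_true (fun X => hb _)
  · push Not at hc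
    have h0 : ¬ F f ∅ := by
      intro h
      obtain ⟨x, hx⟩ := hc true
      apply hx
      rw [← F_supp]
      exact F_mono hf _ _ (empty_subset _) h
    have h0' : F f univ := by
      by_contra h
      obtain ⟨x, hx⟩ := hc false
      apply hx
      rw [← Bool.not_eq_true, ← F_supp]
      intro h'
      exact h (F_mono hf _ _ (subset_univ _) h')
    rw [main_set (F_mono hf) h0 h0']
    constructor
    · intro h
      obtain ⟨l, i, h1, h2, h3⟩ := list_of_nest h
      refine Or.inr ⟨l, i, h1, fun j => ?_, fun x => ?_⟩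
      · rw [relevant_iff hf, h2]
      · have := h3 (supp x)
        rw [F_supp, ind_supp] at this
        exact Bool.eq_iff_iff.2 this
    · rintro (⟨b, hb⟩ | ⟨l, i, h1, h2, h3⟩)
      · obtain ⟨x, hx⟩ := hc b
        exact absurd (hb x) hx
      · have h4 := nest_of_list l i h1
        have h5 : F f = fun X => nest l i (ind X) = true := by
          funext X
          unfold F
          rw [h3]
        rw [← h5] at h4
        rwa [h4.facts.2.2.2.1]

end Pool.Agent.Results.MP_61c8b8_co.LinearReadOnce
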